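import Mathlib

/-!
# The random walk in a random unit-arrow drift field does not homogenize

We formalise the model of the problem and its two conditions (i), (ii) word for word, and prove that
for every dimension `d ≥ 1` and every `ε ∈ (0, 1/(2d))` the model does not homogenize.
-/

open MeasureTheory ProbabilityTheory Filter Topology
open scoped ENNReal NNReal

namespace Pool.Agent.Results.MP_31ab2b_pr.NoHomog

/-- Sites of the lattice `ℤ^d`. -/
abbrev Site (d : ℕ) := Fin d → ℤ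

/-- A unit arrow `± e_i`, coded by its direction `i` and its sign (`true` is `+`). -/
abbrev Arrow (d : ℕ) := Fin d × Bool

/-- The vector `± e_i` of a unit arrow. -/
def vec {d : ℕ} (a : Arrow d) : Site d := Pi.single a.1 (if a.2 then 1 else -1)

/-- An environment: a field of unit arrows. -/
abbrev Env (d : ℕ) := Site d → Arrow d

/-- The law `μ` of the environment: the arrows at different sites are independent and uniform
on the `2d` unit arrows. -/
noncomputable def envLaw (d : ℕ) [NeZero d] : Measure (Env d) :=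
  Measure.infinitePi fun _ : Site d => (PMF.uniformOfFintype (Arrow d)).toMeasure

/-- One-step transition probability `p(x, z, ω)` from `x` to `z`: it is `1 - (2d-1)ε` if
`x - z = n₀(x, ω)`, it is `ε` if `|x - z| = 1` otherwise, and `0` in all other cases. -/
noncomputable def pStep {d : ℕ} (ε : ℝ) (ω : Env d) (x z : Site d) : ℝ :=
  if x - z = vec (ω x) then 1 - (2 * d - 1) * ε
  else if ∑ i, (x i - z i) ^ 2 = 1 then ε else 0

/-- The quenched kernel `p_ω(n, x) = P⁰_ω(X_n = x)` of the chain started at `0`. -/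
noncomputable def pN {d : ℕ} (ε : ℝ) (ω : Env d) : ℕ → Site d → ℝ
  | 0, x => if x = 0 then 1 else 0
  | n + 1, x => ∑' z, pN ε ω n z * pStep ε ω z x

/-- The averaged kernel `m₁(n, x) = ∫ p_ω(n, x) μ(dω)`. -/
noncomputable def m1 (d : ℕ) [NeZero d] (ε : ℝ) (n : ℕ) (x : Site d) : ℝ :=
  ∫ ω, pN ε ω n x ∂(envLaw d)

/-- Condition (i): for some `σ² > 0`, under the averaged law `m₁(n, ·)`, `X_n / √n` converges in law
to the centred Gaussian with covariance `σ² I_d`. -/
def AveragedCLT (d : ℕ) [NeZero d] (ε : ℝ) : Prop :=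
  ∃ σ2 : ℝ≥0, 0 < σ2 ∧ ∀ f : BoundedContinuousFunction (Fin d → ℝ) ℝ,
    Tendsto (fun n : ℕ => ∑' x : Site d, m1 d ε n x * f (fun i => (x i : ℝ) / √(n : ℝ))) atTop
      (𝓝 (∫ y, f y ∂(Measure.pi fun _ : Fin d => gaussianReal 0 σ2)))

/-- Condition (ii): for every `C > 0` and `δ > 0`,
`sup { μ(|p_ω(n,x)/m₁(n,x) - 1| > δ) : |x| ≤ C√n, m₁(n,x) > 0 } → 0` as `n → ∞`. -/
def LocalRatio (d : ℕ) [NeZero d] (ε : ℝ) : Prop :=
  ∀ C : ℝ, 0 < C → ∀ δ : ℝ, 0 < δ →
    Tendsto (fun n : ℕ =>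
      ⨆ x : {x : Site d // √(∑ i, (x i : ℝ) ^ 2) ≤ C * √(n : ℝ) ∧ 0 < m1 d ε n x},
        envLaw d {ω | δ < |pN ε ω n x.1 / m1 d ε n x.1 - 1|}) atTop (𝓝 0)

/-- The model homogenizes (for given `d` and `ε`) if (i) and (ii) hold. -/
def Homogenizes (d : ℕ) [NeZero d] (ε : ℝ) : Prop := AveragedCLT d ε ∧ LocalRatio d ε

/-! ### Elementary facts on arrows -/

section lemmas

variable {d : ℕ}

lemma vec_injective : Function.Injective (vec (d := d)) := by
  rintro ⟨i, s⟩ ⟨j, t⟩ h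
  have hi : i = j := by
    by_contra hne
    have h1 := congrFun h i
    simp only [vec, Pi.single_eq_same] at h1
    rw [Pi.single_eq_of_ne hne] at h1
    cases s <;> simp at h1
  subst hi
  have h1 := congrFun h i
  simp only [vec, Pi.single_eq_same] at h1
  cases s <;> cases t <;> simp at h1 ⊢

lemma sum_vec_sq (a : Arrow d) : ∑ i, (vec a i) ^ 2 = 1 := by
  rw [Finset.sum_eq_single a.1]
  · simp only [vec, Pi.single_eq_same]
    cases a.2 <;> simp
  · intro b _ hb
    simp [vec, Pi.single_eq_of_ne hb]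
  · simp

/-- A site at Euclidean distance one from the origin is `± e_i`. -/
lemma exists_vec_of_sum_sq {v : Site d} (h : ∑ i, (v i) ^ 2 = 1) : ∃ a : Arrow d, vec a = v := by
  have hex : ∃ i, v i ≠ 0 := by
    by_contra hne
    push Not at hne
    simp [hne] at h
  obtain ⟨i, hi⟩ := hex
  have hle : ∀ j, (v j) ^ 2 ≤ 1 := by
    intro j
    rw [← h]
    exact Finset.single_le_sum (f := fun k => (v k) ^ 2) (fun k _ => sq_nonneg _)
      (Finset.mem_univ j)
  have hi1 : (v i) ^ 2 = 1 := by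
    have h1 := hle i
    have h2 : 0 < (v i) ^ 2 := by positivity
    omega
  have hz : ∀ j, j ≠ i → v j = 0 := by
    intro j hj
    by_contra hne
    have h2 : 0 < (v j) ^ 2 := by positivity
    have h3 : (v i) ^ 2 + (v j) ^ 2 ≤ ∑ k, (v k) ^ 2 := by
      rw [← Finset.sum_pair (f := fun k => (v k) ^ 2) (Ne.symm hj)]
      exact Finset.sum_le_sum_of_subset_of_nonneg (Finset.subset_univ _)
        (fun k _ _ => sq_nonneg _)
    rw [h] at h3
    omega
  have hv : ∀ s : Bool, v i = (if s then 1 else -1) → vec (i, s) = v := by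
    intro s hs
    funext j
    by_cases hj : j = i
    · subst hj
      simp [vec, hs]
    · simp [vec, Pi.single_eq_of_ne hj, hz j hj]
  rcases sq_eq_one_iff.1 hi1 with h1 | h1
  · exact ⟨(i, true), hv true (by simpa using h1)⟩
  · exact ⟨(i, false), hv false (by simpa using h1)⟩

lemma vec_ne_zero (a : Arrow d) : vec a ≠ 0 := by
  intro h
  have := sum_vec_sq a
  simp [h] at this

lemma vec_flip (a : Arrow d) : vec a + vec (a.1, !a.2) = 0 := by
  funext j
  by_cases hj : j = a.1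
  · subst hj
    cases h : a.2 <;> simp [vec, h]
  · simp [vec, Pi.single_eq_of_ne hj]

/-- The step probability into `x` from its neighbour `x + vec a`. -/
lemma pStep_add_vec (ε : ℝ) (ω : Env d) (x : Site d) (a : Arrow d) :
    pStep ε ω (x + vec a) x = if ω (x + vec a) = a then 1 - (2 * d - 1) * ε else ε := by
  unfold pStep
  have h1 : x + vec a - x = vec a := by abel
  have h2 : ∑ i, ((x + vec a) i - x i) ^ 2 = 1 := by
    rw [← sum_vec_sq a]
    refine Finset.sum_congr rfl fun i _ => ?_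
    simp
  rw [h1, if_pos h2]
  by_cases h : ω (x + vec a) = a
  · rw [if_pos h, if_pos (by rw [h])]
  · rw [if_neg h, if_neg (fun h' => h (vec_injective h').symm)]

lemma pStep_eq_zero (ε : ℝ) (ω : Env d) (x z : Site d) (h : ∀ a : Arrow d, z ≠ x + vec a) :
    pStep ε ω z x = 0 := by
  unfold pStep
  rw [if_neg, if_neg]
  · intro h'
    obtain ⟨a, ha⟩ := exists_vec_of_sum_sq (v := z - x) h'
    exact h a (by rw [ha]; abel)
  · intro h'
    exact h (ω z) (by rw [← h']; abel)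

/-- The forward equation as a finite sum over the neighbours. -/
lemma pN_succ (ε : ℝ) (ω : Env d) (n : ℕ) (x : Site d) :
    pN ε ω (n + 1) x =
      ∑ a : Arrow d, pN ε ω n (x + vec a) *
        (if ω (x + vec a) = a then 1 - (2 * d - 1) * ε else ε) := by
  have hinj : Function.Injective (fun a : Arrow d => x + vec a) :=
    fun a b h => vec_injective (add_left_cancel h)
  show ∑' z, pN ε ω n z * pStep ε ω z x = _
  rw [tsum_eq_sum (s := Finset.univ.map ⟨_, hinj⟩)]
  · rw [Finset.sum_map]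
    refine Finset.sum_congr rfl fun a _ => ?_
    simp only [Function.Embedding.coeFn_mk]
    rw [pStep_add_vec]
  · intro z hz
    rw [pStep_eq_zero, mul_zero]
    intro a ha
    apply hz
    simp [ha]

variable [NeZero d]

/-- Admissible noise levels. -/
lemma coef_bounds {ε : ℝ} (h0 : 0 < ε) (h1 : ε < 1 / (2 * d)) :
    ε < 1 - (2 * d - 1) * ε ∧ 1 - (2 * d - 1) * ε ≤ 1 := by
  have hd : (1 : ℝ) ≤ d := by exact_mod_cast Nat.one_le_iff_ne_zero.2 (NeZero.ne d)
  have h2 : ε * (2 * d) < 1 := by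
    rwa [lt_div_iff₀ (by positivity)] at h1
  constructor
  · nlinarith
  · nlinarith

omit [NeZero d] in
lemma measurable_pN (ε : ℝ) (n : ℕ) (x : Site d) : Measurable fun ω : Env d => pN ε ω n x := by
  induction n generalizing x with
  | zero => exact measurable_const
  | succ n ih =>
    simp only [pN_succ]
    refine Finset.measurable_sum _ fun a _ => ?_
    refine (ih _).mul ?_
    refine Measurable.ite ?_ measurable_const measurable_const
    exact (measurable_pi_apply (x + vec a) : Measurable fun ω : Env d => ω (x + vec a))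
      (measurableSet_singleton a)

lemma pN_nonneg {ε : ℝ} (h0 : 0 < ε) (h1 : ε < 1 / (2 * d)) (ω : Env d) (n : ℕ) (x : Site d) :
    0 ≤ pN ε ω n x := by
  obtain ⟨hc, hc'⟩ := coef_bounds h0 h1
  induction n generalizing x with
  | zero => simp only [pN]; split_ifs <;> norm_num
  | succ n ih =>
    rw [pN_succ]
    refine Finset.sum_nonneg fun a _ => mul_nonneg (ih _) ?_
    split_ifs <;> linarith

lemma pN_le {ε : ℝ} (h0 : 0 < ε) (h1 : ε < 1 / (2 * d)) (ω : Env d) (n : ℕ) (x : Site d) :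
    pN ε ω n x ≤ (Fintype.card (Arrow d) : ℝ) ^ n := by
  obtain ⟨hc, hc'⟩ := coef_bounds h0 h1
  induction n generalizing x with
  | zero => simp only [pN]; split_ifs <;> norm_num
  | succ n ih =>
    rw [pN_succ, pow_succ, mul_comm (_ ^ n)]
    calc _ ≤ ∑ _a : Arrow d, (Fintype.card (Arrow d) : ℝ) ^ n := by
          refine Finset.sum_le_sum fun a _ => ?_
          calc _ ≤ pN ε ω n (x + vec a) * 1 := by
                refine mul_le_mul_of_nonneg_left ?_ (pN_nonneg h0 h1 _ _ _)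
                split_ifs <;> linarith
            _ ≤ _ := by rw [mul_one]; exact ih _
      _ = _ := by rw [Finset.sum_const, Finset.card_univ, nsmul_eq_mul]

lemma pN_step_le {ε : ℝ} (h0 : 0 < ε) (h1 : ε < 1 / (2 * d)) (ω : Env d) (n : ℕ) (x : Site d)
    (a : Arrow d) : pN ε ω n (x + vec a) * ε ≤ pN ε ω (n + 1) x := by
  obtain ⟨hc, hc'⟩ := coef_bounds h0 h1
  rw [pN_succ]
  calc pN ε ω n (x + vec a) * ε
      ≤ pN ε ω n (x + vec a) * (if ω (x + vec a) = a then 1 - (2 * d - 1) * ε else ε) := by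
        refine mul_le_mul_of_nonneg_left ?_ (pN_nonneg h0 h1 _ _ _)
        split_ifs <;> linarith
    _ ≤ _ := by
        refine Finset.single_le_sum
          (f := fun a => pN ε ω n (x + vec a) *
            (if ω (x + vec a) = a then 1 - (2 * d - 1) * ε else ε)) (fun b _ => ?_)
          (Finset.mem_univ a)
        refine mul_nonneg (pN_nonneg h0 h1 _ _ _) ?_
        split_ifs <;> linarith

lemma pN_even_odd {ε : ℝ} (h0 : 0 < ε) (h1 : ε < 1 / (2 * d)) (ω : Env d) (k : ℕ) :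
    ε ^ (2 * k) ≤ pN ε ω (2 * k) 0 ∧ ∀ a : Arrow d, ε ^ (2 * k + 1) ≤ pN ε ω (2 * k + 1) (vec a) := by
  have hodd : ∀ k, ε ^ (2 * k) ≤ pN ε ω (2 * k) 0 →
      ∀ a : Arrow d, ε ^ (2 * k + 1) ≤ pN ε ω (2 * k + 1) (vec a) := by
    intro k hk a
    have h := pN_step_le h0 h1 ω (2 * k) (vec a) (a.1, !a.2)
    rw [vec_flip] at h
    refine le_trans ?_ h
    rw [pow_succ]
    exact mul_le_mul_of_nonneg_right hk h0.le
  induction k with
  | zero =>
    have hz : ε ^ (2 * 0) ≤ pN ε ω (2 * 0) 0 := by simp [pN]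
    exact ⟨hz, hodd 0 hz⟩
  | succ k ih =>
    have ha : Arrow d := (⟨0, Nat.pos_of_ne_zero (NeZero.ne d)⟩, true)
    have h := pN_step_le h0 h1 ω (2 * k + 1) 0 ha
    rw [zero_add] at h
    have h' : ε ^ (2 * (k + 1)) ≤ pN ε ω (2 * (k + 1)) 0 := by
      have e : 2 * (k + 1) = 2 * k + 1 + 1 := by ring
      rw [e]
      refine le_trans ?_ h
      rw [pow_succ]
      exact mul_le_mul_of_nonneg_right (ih.2 ha) h0.le
    exact ⟨h', hodd _ h'⟩

instance : IsProbabilityMeasure (envLaw d) := by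
  unfold envLaw; infer_instance

lemma integrable_pN {ε : ℝ} (h0 : 0 < ε) (h1 : ε < 1 / (2 * d)) (n : ℕ) (x : Site d) :
    Integrable (fun ω : Env d => pN ε ω n x) (envLaw d) := by
  refine Integrable.of_bound (measurable_pN ε n x).aestronglyMeasurable
    ((Fintype.card (Arrow d) : ℝ) ^ n) (Eventually.of_forall fun ω => ?_)
  rw [Real.norm_of_nonneg (pN_nonneg h0 h1 _ _ _)]
  exact pN_le h0 h1 _ _ _

lemma m1_pos_of_le {ε : ℝ} (h0 : 0 < ε) (h1 : ε < 1 / (2 * d)) (n : ℕ) (x : Site d)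
    (h : ∀ ω : Env d, ε ^ n ≤ pN ε ω n x) : 0 < m1 d ε n x := by
  have h2 : ∫ _ω : Env d, ε ^ n ∂(envLaw d) ≤ m1 d ε n x :=
    integral_mono (integrable_const _) (integrable_pN h0 h1 n x) h
  rw [integral_const] at h2
  simp only [probReal_univ, smul_eq_mul, one_mul] at h2
  exact lt_of_lt_of_le (by positivity) h2

/-! ### Two local environments of positive probability -/

/-- Every neighbour of the origin has its arrow pointing so that the walk steps to the origin. -/
def allIn (d : ℕ) : Set (Env d) := {ω | ∀ a : Arrow d, ω (vec a) = a}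

/-- No neighbour of the origin has its arrow pointing so that the walk steps to the origin. -/
def noneIn (d : ℕ) : Set (Env d) := {ω | ∀ a : Arrow d, ω (vec a) ≠ a}

lemma unif_pos {t : Set (Arrow d)} {b : Arrow d} (hb : b ∈ t) :
    0 < (PMF.uniformOfFintype (Arrow d)).toMeasure t := by
  have h1 : (PMF.uniformOfFintype (Arrow d)).toMeasure {b} ≤
      (PMF.uniformOfFintype (Arrow d)).toMeasure t :=
    measure_mono (Set.singleton_subset_iff.2 hb)
  refine lt_of_lt_of_le ?_ h1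
  rw [PMF.toMeasure_apply_singleton _ _ (measurableSet_singleton b)]
  rw [PMF.uniformOfFintype_apply]
  exact ENNReal.inv_pos.2 (ENNReal.natCast_ne_top _)

/-- The product law gives positive mass to the cylinder sets used below. -/
lemma cyl_pos (t : Site d → Set (Arrow d)) (ht : ∀ a : Arrow d, (t (vec a)).Nonempty) :
    0 < envLaw d (Set.pi (Finset.univ.image (vec (d := d)) : Finset (Site d)) t) := by
  unfold envLaw
  rw [Measure.infinitePi_pi]
  · rw [pos_iff_ne_zero, Finset.prod_ne_zero_iff]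
    intro y hy
    obtain ⟨a, _, rfl⟩ := Finset.mem_image.1 hy
    obtain ⟨b, hb⟩ := ht a
    exact (unif_pos hb).ne'
  · intro i _
    exact (Set.toFinite _).measurableSet

lemma allIn_pos : 0 < envLaw d (allIn d) := by
  refine lt_of_lt_of_le (cyl_pos (fun y => {b : Arrow d | vec b = y}) fun a => ⟨a, rfl⟩)
    (measure_mono ?_)
  intro ω hω a
  exact vec_injective (hω (vec a) (by simp))

lemma noneIn_pos : 0 < envLaw d (noneIn d) := by
  refine lt_of_lt_of_le (cyl_pos (fun y => {b : Arrow d | vec b ≠ y}) fun a => ?_)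
    (measure_mono ?_)
  · refine ⟨(a.1, !a.2), ?_⟩
    intro h
    have h2 := vec_injective h
    have h3 := congrArg Prod.snd h2
    cases h4 : a.2 <;> simp [h4] at h3
  · intro ω hω a h
    have h2 := hω (vec a) (by simp)
    exact h2 (by rw [h])

/-- The bad event at scale `k`: one of the `2d + 1` local ratios is off by more than `δ`. -/
def bad (d : ℕ) [NeZero d] (ε δ : ℝ) (k : ℕ) : Set (Env d) :=
  (⋃ a : Arrow d, {ω | δ < |pN ε ω (2 * k + 1) (vec a) / m1 d ε (2 * k + 1) (vec a) - 1|}) ∪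
    {ω | δ < |pN ε ω (2 * (k + 1)) 0 / m1 d ε (2 * (k + 1)) 0 - 1|}

lemma m1_odd_pos {ε : ℝ} (h0 : 0 < ε) (h1 : ε < 1 / (2 * d)) (k : ℕ) (a : Arrow d) :
    0 < m1 d ε (2 * k + 1) (vec a) :=
  m1_pos_of_le h0 h1 _ _ fun ω => (pN_even_odd h0 h1 ω k).2 a

lemma m1_even_pos {ε : ℝ} (h0 : 0 < ε) (h1 : ε < 1 / (2 * d)) (k : ℕ) :
    0 < m1 d ε (2 * k) 0 :=
  m1_pos_of_le h0 h1 _ _ fun ω => (pN_even_odd h0 h1 ω k).1

lemma tendsto_bad {ε : ℝ} (h0 : 0 < ε) (h1 : ε < 1 / (2 * d)) (h : LocalRatio d ε) {δ : ℝ}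
    (hδ : 0 < δ) : Tendsto (fun k => envLaw d (bad d ε δ k)) atTop (𝓝 0) := by
  have hs := h 1 one_pos δ hδ
  set s : ℕ → ℝ≥0∞ := fun n : ℕ =>
      ⨆ x : {x : Site d // √(∑ i, (x i : ℝ) ^ 2) ≤ 1 * √(n : ℝ) ∧ 0 < m1 d ε n x},
        envLaw d {ω | δ < |pN ε ω n x.1 / m1 d ε n x.1 - 1|} with hsdef
  have ho : Tendsto (fun k : ℕ => s (2 * k + 1)) atTop (𝓝 0) :=
    hs.comp (tendsto_atTop_mono (fun k => by simp only [id]; omega) tendsto_id)
  have he : Tendsto (fun k : ℕ => s (2 * (k + 1))) atTop (𝓝 0) :=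
    hs.comp (tendsto_atTop_mono (fun k => by simp only [id]; omega) tendsto_id)
  have hsum : Tendsto (fun k : ℕ => (∑ _a : Arrow d, s (2 * k + 1)) + s (2 * (k + 1))) atTop
      (𝓝 0) := by
    have := (tendsto_finsetSum (Finset.univ : Finset (Arrow d)) fun _ _ => ho).add he
    simpa using this
  refine tendsto_of_tendsto_of_tendsto_of_le_of_le tendsto_const_nhds hsum
    (fun _ => zero_le) fun k => ?_
  refine (measure_union_le _ _).trans (add_le_add ?_ ?_)
  · refine (measure_iUnion_fintype_le _ _).trans (Finset.sum_le_sum fun a _ => ?_)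
    refine le_iSup (fun x : {x : Site d // √(∑ i, (x i : ℝ) ^ 2) ≤ 1 * √((2 * k + 1 : ℕ) : ℝ) ∧
      0 < m1 d ε (2 * k + 1) x} =>
        envLaw d {ω | δ < |pN ε ω (2 * k + 1) x.1 / m1 d ε (2 * k + 1) x.1 - 1|})
      ⟨vec a, ?_, m1_odd_pos h0 h1 k a⟩
    rw [one_mul]
    apply Real.sqrt_le_sqrt
    have := sum_vec_sq a
    have h3 : ∑ i, ((vec a i : ℤ) : ℝ) ^ 2 = 1 := by exact_mod_cast this
    rw [h3]
    push_cast
    have : (0 : ℝ) ≤ k := Nat.cast_nonneg k
    linarith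
  · refine le_iSup (fun x : {x : Site d // √(∑ i, (x i : ℝ) ^ 2) ≤ 1 * √((2 * (k + 1) : ℕ) : ℝ) ∧
      0 < m1 d ε (2 * (k + 1)) x} =>
        envLaw d {ω | δ < |pN ε ω (2 * (k + 1)) x.1 / m1 d ε (2 * (k + 1)) x.1 - 1|})
      ⟨0, ?_, m1_even_pos h0 h1 (k + 1)⟩
    simp

/-- Outside the bad event all the local ratios are within `δ` of one. -/
lemma good_bounds {ε δ : ℝ} {k : ℕ} {ω : Env d} (h0 : 0 < ε) (h1 : ε < 1 / (2 * d))
    (hω : ω ∉ bad d ε δ k) :
    (∀ a : Arrow d, (1 - δ) * m1 d ε (2 * k + 1) (vec a) ≤ pN ε ω (2 * k + 1) (vec a) ∧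
      pN ε ω (2 * k + 1) (vec a) ≤ (1 + δ) * m1 d ε (2 * k + 1) (vec a)) ∧
    (1 - δ) * m1 d ε (2 * (k + 1)) 0 ≤ pN ε ω (2 * (k + 1)) 0 ∧
      pN ε ω (2 * (k + 1)) 0 ≤ (1 + δ) * m1 d ε (2 * (k + 1)) 0 := by
  have key : ∀ p m : ℝ, 0 < m → ¬ δ < |p / m - 1| → (1 - δ) * m ≤ p ∧ p ≤ (1 + δ) * m := by
    intro p m hm hle
    rw [not_lt, abs_le] at hle
    obtain ⟨hl, hr⟩ := hle
    have e : p / m * m = p := div_mul_cancel₀ p hm.ne'
    constructor
    · have : (1 - δ) * m ≤ p / m * m := mul_le_mul_of_nonneg_right (by linarith) hm.le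
      rwa [e] at this
    · have : p / m * m ≤ (1 + δ) * m := mul_le_mul_of_nonneg_right (by linarith) hm.le
      rwa [e] at this
  unfold bad at hω
  rw [Set.mem_union, not_or] at hω
  obtain ⟨ha, hb⟩ := hω
  refine ⟨fun a => ?_, ?_⟩
  · refine key _ _ (m1_odd_pos h0 h1 k a) ?_
    intro hlt
    exact ha (Set.mem_iUnion.2 ⟨a, hlt⟩)
  · exact key _ _ (m1_even_pos h0 h1 (k + 1)) hb

end lemmas

/-- Condition (ii) fails in every dimension `d ≥ 1` and for every `ε ∈ (0, 1/(2d))`. -/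
theorem not_localRatio (d : ℕ) [NeZero d] (ε : ℝ) (h0 : 0 < ε) (h1 : ε < 1 / (2 * d)) :
    ¬ LocalRatio d ε := by
  intro h
  obtain ⟨hc, hc'⟩ := coef_bounds h0 h1
  set B : ℝ := 1 - (2 * d - 1) * ε with hB
  set δ : ℝ := (B - ε) / 6 with hδdef
  have hδ : 0 < δ := by rw [hδdef]; linarith
  have hδ1 : δ < 1 := by rw [hδdef]; linarith
  have ht := tendsto_bad h0 h1 h hδ
  have e0 : ∀ᶠ k in atTop, envLaw d (bad d ε δ k) < envLaw d (noneIn d) :=
    (tendsto_order.1 ht).2 _ noneIn_pos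
  have e1 : ∀ᶠ k in atTop, envLaw d (bad d ε δ k) < envLaw d (allIn d) :=
    (tendsto_order.1 ht).2 _ allIn_pos
  obtain ⟨k, hk0, hk1⟩ := (e0.and e1).exists
  obtain ⟨ω₀, hω₀, hg₀⟩ : ∃ ω, ω ∈ noneIn d ∧ ω ∉ bad d ε δ k := by
    by_contra hne
    push Not at hne
    exact absurd (measure_mono (μ := envLaw d) fun ω hω => hne ω hω) (not_le.2 hk0)
  obtain ⟨ω₁, hω₁, hg₁⟩ : ∃ ω, ω ∈ allIn d ∧ ω ∉ bad d ε δ k := by
    by_contra hne
    push Not at hne
    exact absurd (measure_mono (μ := envLaw d) fun ω hω => hne ω hω) (not_le.2 hk1)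
  obtain ⟨hn₀, hl₀, hu₀⟩ := good_bounds h0 h1 hg₀
  obtain ⟨hn₁, hl₁, hu₁⟩ := good_bounds h0 h1 hg₁
  set S : ℝ := ∑ a : Arrow d, m1 d ε (2 * k + 1) (vec a) with hS
  have hSpos : 0 < S := by
    have hne : (Finset.univ : Finset (Arrow d)).Nonempty :=
      ⟨(⟨0, Nat.pos_of_ne_zero (NeZero.ne d)⟩, true), Finset.mem_univ _⟩
    exact Finset.sum_pos (fun a _ => m1_odd_pos h0 h1 k a) hne
  have e : 2 * (k + 1) = 2 * k + 1 + 1 := by ring
  -- no arrow points in: an upper bound on `m₁`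
  have hA : pN ε ω₀ (2 * (k + 1)) 0 ≤ ε * ((1 + δ) * S) := by
    rw [e, pN_succ, hS, Finset.mul_sum, Finset.mul_sum]
    refine Finset.sum_le_sum fun a _ => ?_
    rw [zero_add, if_neg (hω₀ a), mul_comm]
    exact mul_le_mul_of_nonneg_left (hn₀ a).2 h0.le
  -- all arrows point in: a lower bound on `m₁`
  have hAB : B * ((1 - δ) * S) ≤ pN ε ω₁ (2 * (k + 1)) 0 := by
    rw [e, pN_succ, hS, Finset.mul_sum, Finset.mul_sum]
    refine Finset.sum_le_sum fun a _ => ?_
    rw [zero_add, if_pos (hω₁ a), mul_comm (pN _ _ _ _)]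
    exact mul_le_mul_of_nonneg_left (hn₁ a).1 (by linarith)
  set M : ℝ := m1 d ε (2 * (k + 1)) 0 with hM
  have i1 : (1 - δ) * M ≤ ε * ((1 + δ) * S) := hl₀.trans hA
  have i2 : B * ((1 - δ) * S) ≤ (1 + δ) * M := hAB.trans hu₁
  have i3 : B * (1 - δ) ^ 2 * S ≤ ε * (1 + δ) ^ 2 * S := by
    have j1 : (1 - δ) * (B * ((1 - δ) * S)) ≤ (1 - δ) * ((1 + δ) * M) :=
      mul_le_mul_of_nonneg_left i2 (by linarith)
    have j2 : (1 + δ) * ((1 - δ) * M) ≤ (1 + δ) * (ε * ((1 + δ) * S)) :=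
      mul_le_mul_of_nonneg_left i1 (by linarith)
    nlinarith
  have i4 : B * (1 - δ) ^ 2 ≤ ε * (1 + δ) ^ 2 := le_of_mul_le_mul_right i3 hSpos
  have hBle : B ≤ 1 := hc'
  have hδ6 : δ ≤ 1 / 6 := by rw [hδdef]; linarith
  have hBe : B = ε + 6 * δ := by rw [hδdef]; ring
  have hε1 : ε ≤ 1 := by linarith
  nlinarith [mul_pos hδ hδ, mul_nonneg h0.le hδ.le, mul_nonneg hδ.le (sub_nonneg.2 hBle),
    mul_nonneg (mul_nonneg hδ.le hδ.le) h0.le]

/-- **Main result.** In every dimension `d ≥ 1` and for every `ε ∈ (0, 1/(2d))` the random walk in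
the random unit-arrow drift field does not homogenize. In particular, for `d ≥ 3` there is no
`ε₀ > 0` such that the model homogenizes for every `ε ∈ (0, ε₀)`. -/
theorem result (d : ℕ) [NeZero d] (ε : ℝ) (h0 : 0 < ε) (h1 : ε < 1 / (2 * d)) :
    ¬ Homogenizes d ε :=
  fun h => not_localRatio d ε h0 h1 h.2

end Pool.Agent.Results.MP_31ab2b_pr.NoHomog
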